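import Pool.Agent.Y16.AF.StmA

/-! Assembly of the asymptotics of the one loop coefficient. -/

set_option autoImplicit false

namespace Pool.Agent.Y352.AF

open Pool.Agent.Y16.AF Finset

theorem GN_symm (L : ℕ) (ω : ℝ) (t s : ℕ) : GN L ω t s = GN L ω s t := by
  unfold GN
  rw [min_comm, max_comm]

theorem GD_symm (L : ℕ) (ω : ℝ) (t s : ℕ) : GD L ω t s = GD L ω s t := by
  unfold GD
  rw [min_comm, max_comm]

theorem sum_symm (L : ℕ) (g : ℕ → ℕ → ℝ) (hg : ∀ t s, g t s = g s t) (a : ℕ → ℝ) :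
    ∑ t ∈ range L, ∑ s ∈ range L, g t s * (a t * a s) =
      (∑ t ∈ range L, a t ^ 2 * ∑ s ∈ range L, g t s) -
        1 / 2 * ∑ t ∈ range L, ∑ s ∈ range L, (a t - a s) ^ 2 * g t s := by
  have h1 : ∑ t ∈ range L, ∑ s ∈ range L, a s ^ 2 * g t s =
      ∑ t ∈ range L, ∑ s ∈ range L, a t ^ 2 * g t s := by
    rw [sum_comm]
    refine sum_congr rfl fun t _ => sum_congr rfl fun s _ => ?_
    rw [hg]
  have h2 : ∑ t ∈ range L, ∑ s ∈ range L, g t s * (a t * a s) =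
      1 / 2 * (∑ t ∈ range L, ∑ s ∈ range L, a t ^ 2 * g t s) +
      1 / 2 * (∑ t ∈ range L, ∑ s ∈ range L, a s ^ 2 * g t s) -
        1 / 2 * ∑ t ∈ range L, ∑ s ∈ range L, (a t - a s) ^ 2 * g t s := by
    simp only [mul_sum, ← sum_add_distrib, ← sum_sub_distrib]
    refine sum_congr rfl fun t _ => sum_congr rfl fun s _ => ?_
    ring
  rw [h2, h1]
  simp only [mul_sum]
  simp only [← sum_add_distrib, ← sum_sub_distrib]
  refine sum_congr rfl fun t _ => sum_congr rfl fun s _ => ?_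
  ring

theorem FX_eq (L : ℕ) (x w : ℝ) :
    FX L x w = (∑ t ∈ range L, ((t : ℝ) + 1 / 2) ^ 2 * (2 * Real.cos x * GN L w t t -
        4 * Real.sin x ^ 2 * ∑ s ∈ range L, GN L w t s ^ 2)) +
      (∑ t ∈ range L, (t : ℝ) ^ 2 * (2 * Real.cos x * GD L w t t -
        4 * Real.sin x ^ 2 * ∑ s ∈ range L, GD L w t s ^ 2)) +
      2 * Real.sin x ^ 2 * ∑ t ∈ range L, ∑ s ∈ range L,
        ((t : ℝ) - s) ^ 2 * (GN L w t s ^ 2 + GD L w t s ^ 2) := by
  unfold FX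
  have h1 := sum_symm L (fun t s => GN L w t s ^ 2) (fun t s => by rw [GN_symm])
    (fun t => (t : ℝ) + 1 / 2)
  have h2 := sum_symm L (fun t s => GD L w t s ^ 2) (fun t s => by rw [GD_symm])
    (fun t => (t : ℝ))
  rw [h1, h2]
  have h3 : ∑ t ∈ range L, ∑ s ∈ range L,
        ((t : ℝ) - s) ^ 2 * (GN L w t s ^ 2 + GD L w t s ^ 2) =
      (∑ t ∈ range L, ∑ s ∈ range L, ((t : ℝ) + 1 / 2 - (s + 1 / 2)) ^ 2 * GN L w t s ^ 2) +
      ∑ t ∈ range L, ∑ s ∈ range L, ((t : ℝ) - s) ^ 2 * GD L w t s ^ 2 := by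
    simp only [← sum_add_distrib]
    refine sum_congr rfl fun t _ => sum_congr rfl fun s _ => ?_
    ring
  rw [h3]
  have h4 : ∑ t ∈ range L, ((t : ℝ) + 1 / 2) ^ 2 * (2 * Real.cos x * GN L w t t -
        4 * Real.sin x ^ 2 * ∑ s ∈ range L, GN L w t s ^ 2) =
      (∑ t ∈ range L, GN L w t t * (2 * Real.cos x * ((t : ℝ) + 1 / 2) ^ 2)) -
      4 * Real.sin x ^ 2 * ∑ t ∈ range L, ((t : ℝ) + 1 / 2) ^ 2 *
        ∑ s ∈ range L, GN L w t s ^ 2 := by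
    rw [mul_sum (s := range L) (a := 4 * Real.sin x ^ 2), ← sum_sub_distrib]
    refine sum_congr rfl fun t _ => ?_
    ring
  have h5 : ∑ t ∈ range L, (t : ℝ) ^ 2 * (2 * Real.cos x * GD L w t t -
        4 * Real.sin x ^ 2 * ∑ s ∈ range L, GD L w t s ^ 2) =
      (∑ t ∈ range L, GD L w t t * (2 * Real.cos x * (t : ℝ) ^ 2)) -
      4 * Real.sin x ^ 2 * ∑ t ∈ range L, (t : ℝ) ^ 2 *
        ∑ s ∈ range L, GD L w t s ^ 2 := by
    rw [mul_sum (s := range L) (a := 4 * Real.sin x ^ 2), ← sum_sub_distrib]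
    refine sum_congr rfl fun t _ => ?_
    ring
  rw [h4, h5]
  ring

theorem sin_sq_le (x : ℝ) : Real.sin x ^ 2 ≤ 2 - 2 * Real.cos x := by
  nlinarith [Real.sin_sq_add_cos_sq x, Real.cos_le_one x, Real.neg_one_le_cos x,
    mul_nonneg (sub_nonneg.2 (Real.cos_le_one x)) (sub_nonneg.2 (Real.cos_le_one x))]

theorem wh2_ge {L : ℕ} (k : Sp L) : 2 - 2 * Real.cos (ang k 0) ≤ wh2 k := by
  unfold wh2
  rw [Fin.sum_univ_three]
  nlinarith [Real.cos_le_one (ang k 1), Real.cos_le_one (ang k 2)]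

/-- The contribution of one momentum. -/
theorem mode_bound {C0 C2 C3 C4 : ℝ} (hC0 : 0 < C0) (hC2 : 0 ≤ C2)
    {L : ℕ} (hL : 2 ≤ L) {x w W : ℝ} (hw : 0 < w) (hw3 : w ≤ 3)
    (hW : 2 - 2 * Real.cos x ≤ W) (hWw : |W - w ^ 2| ≤ C0 * w ^ 4)
    (hV : |(∑ t ∈ range L, ∑ s ∈ range L,
      ((t : ℝ) - s) ^ 2 * (GN L w t s ^ 2 + GD L w t s ^ 2)) - L / (4 * w ^ 5)| ≤
        C2 * (1 / w ^ 6 + L / w ^ 4))
    (hY : |(∑ t ∈ range L, ∑ s ∈ range L,
      GN L w t s * (GD L w t s + GD L w (t + 1) s + GD L w t (s + 1) + GD L w (t + 1) (s + 1))) -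
        L / w ^ 3| ≤ C3 * (1 / w ^ 4 + L / w ^ 2))
    (hF : |FW L w| ≤ C4 * (L / w)) :
    |(FX L x w - FY L x w + FW L w) -
      ((∑ t ∈ range L, ((t : ℝ) + 1 / 2) ^ 2 * (2 * Real.cos x * GN L w t t -
        4 * Real.sin x ^ 2 * ∑ s ∈ range L, GN L w t s ^ 2)) +
      (∑ t ∈ range L, (t : ℝ) ^ 2 * (2 * Real.cos x * GD L w t t -
        4 * Real.sin x ^ 2 * ∑ s ∈ range L, GD L w t s ^ 2)) +
      (L / 2 * (Real.sin x ^ 2 / w ^ 5) - 2 * L * (1 / w ^ 3) +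
        L * ((1 - Real.cos x) / w ^ 3)))| ≤
      (2 * (1 + 9 * C0) * C2 + 2 * C3) * (1 / w ^ 4 + L * (1 / w ^ 2)) +
        C4 * (L * (1 / w)) := by
  have hL0 : (0 : ℝ) < L := by exact_mod_cast (by omega : 0 < L)
  set V := ∑ t ∈ range L, ∑ s ∈ range L,
      ((t : ℝ) - s) ^ 2 * (GN L w t s ^ 2 + GD L w t s ^ 2) with hVdef
  set Y := ∑ t ∈ range L, ∑ s ∈ range L,
      GN L w t s * (GD L w t s + GD L w (t + 1) s + GD L w t (s + 1) + GD L w (t + 1) (s + 1))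
    with hYdef
  have hFY : FY L x w = (1 + Real.cos x) * Y := rfl
  rw [FX_eq, hFY, ← hVdef]
  have hs2 : Real.sin x ^ 2 ≤ (1 + 9 * C0) * w ^ 2 := by
    have h1 := (abs_le.1 hWw).2
    have h2 := sin_sq_le x
    have h3 : w ^ 4 ≤ 9 * w ^ 2 := by
      have : w ^ 2 ≤ 9 := by nlinarith
      nlinarith [sq_nonneg w]
    nlinarith
  have e : ∀ A B : ℝ, (A + B + 2 * Real.sin x ^ 2 * V - (1 + Real.cos x) * Y + FW L w) -
      (A + B + (L / 2 * (Real.sin x ^ 2 / w ^ 5) - 2 * L * (1 / w ^ 3) +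
        L * ((1 - Real.cos x) / w ^ 3))) =
      2 * Real.sin x ^ 2 * (V - L / (4 * w ^ 5)) - (1 + Real.cos x) * (Y - L / w ^ 3) +
        FW L w := by
    intro A B
    field_simp
    ring
  rw [e]
  have b1 : |2 * Real.sin x ^ 2 * (V - L / (4 * w ^ 5))| ≤
      2 * (1 + 9 * C0) * C2 * (1 / w ^ 4 + L * (1 / w ^ 2)) := by
    rw [abs_mul, abs_of_nonneg (by positivity)]
    have h1 : 0 ≤ C2 * (1 / w ^ 6 + L / w ^ 4) := by positivity
    calc 2 * Real.sin x ^ 2 * |V - L / (4 * w ^ 5)|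
        ≤ 2 * ((1 + 9 * C0) * w ^ 2) * (C2 * (1 / w ^ 6 + L / w ^ 4)) := by
          apply mul_le_mul _ hV (abs_nonneg _) (by positivity)
          linarith
      _ = _ := by
          field_simp
  have b2 : |(1 + Real.cos x) * (Y - L / w ^ 3)| ≤ 2 * C3 * (1 / w ^ 4 + L * (1 / w ^ 2)) := by
    have hc1 := Real.cos_le_one x
    have hc2 := Real.neg_one_le_cos x
    rw [abs_mul, abs_of_nonneg (by linarith)]
    calc (1 + Real.cos x) * |Y - L / w ^ 3| ≤ 2 * (C3 * (1 / w ^ 4 + L / w ^ 2)) := by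
          apply mul_le_mul (by linarith) hY (abs_nonneg _) (by norm_num)
      _ = _ := by ring
  have b3 : C4 * (L / w) = C4 * (L * (1 / w)) := by ring
  rw [b3] at hF
  have b4 := abs_add_le (2 * Real.sin x ^ 2 * (V - L / (4 * w ^ 5)) -
    (1 + Real.cos x) * (Y - L / w ^ 3)) (FW L w)
  have b5 := abs_sub (2 * Real.sin x ^ 2 * (V - L / (4 * w ^ 5)))
    ((1 + Real.cos x) * (Y - L / w ^ 3))
  linarith

theorem af_asym : S_ASYM := by
  intro hEN hGI hSPR hSPY hSPW hSUMS hLOG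
  obtain ⟨c0, C0, hc0, hC0, hEN⟩ := hEN
  obtain ⟨C1, hGI⟩ := hGI
  obtain ⟨C2, hSPR⟩ := hSPR
  obtain ⟨C3, hSPY⟩ := hSPY
  obtain ⟨C4, hSPW⟩ := hSPW
  obtain ⟨C5, hSUMS⟩ := hSUMS
  obtain ⟨C6, hLOG⟩ := hLOG
  set D : ℝ := 2 * (1 + 9 * C0) * |C2| + 2 * |C3| with hD
  refine ⟨2 * |C1| + 1 / 2 * |C6| + 2 * |C6| + |C6| + D * (|C5| + |C5|) + |C4| * |C5|, ?_⟩
  intro L _ hL
  obtain ⟨hS4, hS2, hS1⟩ := hSUMS L hL
  obtain ⟨hL3, hL5, hLc⟩ := hLOG L hL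
  have hL0 : (0 : ℝ) < L := by exact_mod_cast (by omega : 0 < L)
  have hD0 : 0 ≤ D := by positivity
  set K := Finset.univ.filter (fun k : Sp L => k ≠ 0) with hK
  set A : Sp L → ℝ := fun k => ∑ t ∈ range L, ((t : ℝ) + 1 / 2) ^ 2 *
    (2 * Real.cos (ang k 0) * GN L (en k) t t -
      4 * Real.sin (ang k 0) ^ 2 * ∑ s ∈ range L, GN L (en k) t s ^ 2) with hA
  set B : Sp L → ℝ := fun k => ∑ t ∈ range L, (t : ℝ) ^ 2 *
    (2 * Real.cos (ang k 0) * GD L (en k) t t -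
      4 * Real.sin (ang k 0) ^ 2 * ∑ s ∈ range L, GD L (en k) t s ^ 2) with hB
  have hAsum : |∑ k ∈ K, A k| ≤ |C1| * L ^ 4 := by
    have h1 : ∑ k ∈ K, A k = ∑ t ∈ range L, ((t : ℝ) + 1 / 2) ^ 2 *
        ∑ k ∈ K, (2 * Real.cos (ang k 0) * GN L (en k) t t -
          4 * Real.sin (ang k 0) ^ 2 * ∑ s ∈ range L, GN L (en k) t s ^ 2) := by
      simp only [hA]
      rw [sum_comm]
      refine sum_congr rfl fun t _ => ?_
      rw [mul_sum]
    rw [h1]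
    refine (abs_sum_le_sum_abs _ _).trans ?_
    have h2 : ∀ t ∈ range L, |((t : ℝ) + 1 / 2) ^ 2 *
        ∑ k ∈ K, (2 * Real.cos (ang k 0) * GN L (en k) t t -
          4 * Real.sin (ang k 0) ^ 2 * ∑ s ∈ range L, GN L (en k) t s ^ 2)| ≤
        L ^ 2 * (|C1| * L) := by
      intro t ht
      have ht' : (t : ℝ) + 1 ≤ L := by exact_mod_cast mem_range.1 ht
      rw [abs_mul, abs_of_nonneg (sq_nonneg _)]
      apply mul_le_mul _ _ (abs_nonneg _) (by positivity)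
      · apply pow_le_pow_left₀ (by positivity)
        linarith
      · refine ((hGI L hL t (mem_range.1 ht)).2).trans ?_
        exact mul_le_mul_of_nonneg_right (le_abs_self _) hL0.le
    refine (sum_le_sum h2).trans ?_
    rw [sum_const, card_range, nsmul_eq_mul]
    apply le_of_eq
    ring
  have hBsum : |∑ k ∈ K, B k| ≤ |C1| * L ^ 4 := by
    have h1 : ∑ k ∈ K, B k = ∑ t ∈ range L, (t : ℝ) ^ 2 *
        ∑ k ∈ K, (2 * Real.cos (ang k 0) * GD L (en k) t t -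
          4 * Real.sin (ang k 0) ^ 2 * ∑ s ∈ range L, GD L (en k) t s ^ 2) := by
      simp only [hB]
      rw [sum_comm]
      refine sum_congr rfl fun t _ => ?_
      rw [mul_sum]
    rw [h1]
    refine (abs_sum_le_sum_abs _ _).trans ?_
    have h2 : ∀ t ∈ range L, |(t : ℝ) ^ 2 *
        ∑ k ∈ K, (2 * Real.cos (ang k 0) * GD L (en k) t t -
          4 * Real.sin (ang k 0) ^ 2 * ∑ s ∈ range L, GD L (en k) t s ^ 2)| ≤
        L ^ 2 * (|C1| * L) := by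
      intro t ht
      have ht' : (t : ℝ) + 1 ≤ L := by exact_mod_cast mem_range.1 ht
      rw [abs_mul, abs_of_nonneg (sq_nonneg _)]
      apply mul_le_mul _ _ (abs_nonneg _) (by positivity)
      · apply pow_le_pow_left₀ (by positivity)
        linarith
      · refine ((hGI L hL t (mem_range.1 ht)).1).trans ?_
        exact mul_le_mul_of_nonneg_right (le_abs_self _) hL0.le
    refine (sum_le_sum h2).trans ?_
    rw [sum_const, card_range, nsmul_eq_mul]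
    apply le_of_eq
    ring
  set M : Sp L → ℝ := fun k => L / 2 * (Real.sin (ang k 0) ^ 2 / en k ^ 5) -
    2 * L * (1 / en k ^ 3) + L * ((1 - Real.cos (ang k 0)) / en k ^ 3) with hM
  set E : Sp L → ℝ := fun k => (FX L (ang k 0) (en k) - FY L (ang k 0) (en k) + FW L (en k)) -
    (A k + B k + M k) with hE
  have hEb : ∀ k ∈ K, |E k| ≤ D * (1 / en k ^ 4 + L * (1 / en k ^ 2)) +
      |C4| * (L * (1 / en k)) := by
    intro k hk
    have hk0 : k ≠ 0 := (mem_filter.1 hk).2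
    obtain ⟨e1, e2, e3, e4, e5, -, -⟩ := hEN L hL k hk0
    have h1 := hSPR L hL (en k) e1 e3 e2
    have h2 := hSPY L hL (en k) e1 e3 e2
    have h3 := hSPW L hL (en k) e1 e3 e2
    exact mode_bound (C0 := C0) (C2 := |C2|) (C3 := |C3|) (C4 := |C4|) (W := wh2 k) hC0
      (abs_nonneg _) hL (x := ang k 0) e1 e3 (wh2_ge k) e5
      (h1.trans (mul_le_mul_of_nonneg_right (le_abs_self _) (by positivity)))
      (h2.trans (mul_le_mul_of_nonneg_right (le_abs_self _) (by positivity)))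
      (h3.trans (mul_le_mul_of_nonneg_right (le_abs_self _) (by positivity)))
  have hEsum : |∑ k ∈ K, E k| ≤ (D * (|C5| + |C5|) + |C4| * |C5|) * L ^ 4 := by
    refine (abs_sum_le_sum_abs _ _).trans ((sum_le_sum hEb).trans ?_)
    rw [sum_add_distrib, ← mul_sum, ← mul_sum, sum_add_distrib, ← mul_sum, ← mul_sum]
    have h4 : ∑ k ∈ K, 1 / en k ^ 4 ≤ |C5| * L ^ 4 :=
      hS4.trans (mul_le_mul_of_nonneg_right (le_abs_self _) (by positivity))
    have h2 : ∑ k ∈ K, 1 / en k ^ 2 ≤ |C5| * L ^ 3 :=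
      hS2.trans (mul_le_mul_of_nonneg_right (le_abs_self _) (by positivity))
    have h1 : ∑ k ∈ K, 1 / en k ≤ |C5| * L ^ 3 :=
      hS1.trans (mul_le_mul_of_nonneg_right (le_abs_self _) (by positivity))
    have h5 : D * (∑ k ∈ K, 1 / en k ^ 4 + L * ∑ k ∈ K, 1 / en k ^ 2) ≤
        D * (|C5| * L ^ 4 + L * (|C5| * L ^ 3)) := by
      apply mul_le_mul_of_nonneg_left _ hD0
      exact add_le_add h4 (mul_le_mul_of_nonneg_left h2 hL0.le)
    have h6 : |C4| * (L * ∑ k ∈ K, 1 / en k) ≤ |C4| * (L * (|C5| * L ^ 3)) :=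
      mul_le_mul_of_nonneg_left (mul_le_mul_of_nonneg_left h1 hL0.le) (abs_nonneg _)
    refine (add_le_add h5 h6).trans (le_of_eq ?_)
    ring
  set S5 := (∑ k ∈ K, Real.sin (ang k 0) ^ 2 / en k ^ 5) / (L : ℝ) ^ 3 with hS5
  set S3 := (∑ k ∈ K, 1 / en k ^ 3) / (L : ℝ) ^ 3 with hS3
  set Sc := (∑ k ∈ K, (1 - Real.cos (ang k 0)) / en k ^ 3) / (L : ℝ) ^ 3 with hSc
  have hMsum : ∑ k ∈ K, M k = L ^ 4 * (1 / 2 * S5 - 2 * S3 + Sc) := by
    simp only [hM]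
    rw [sum_add_distrib, sum_sub_distrib, ← mul_sum, ← mul_sum, ← mul_sum, hS5, hS3, hSc]
    field_simp
  have hFF : ∑ k ∈ K, FF L (ang k 0) (en k) =
      (∑ k ∈ K, A k + ∑ k ∈ K, B k + ∑ k ∈ K, M k + ∑ k ∈ K, E k) / (L : ℝ) ^ 4 := by
    rw [← sum_add_distrib, ← sum_add_distrib, ← sum_add_distrib, sum_div]
    refine sum_congr rfl fun k _ => ?_
    unfold FF
    simp only [hE]
    ring
  have hmain : ∑ k ∈ K, FF L (ang k 0) (en k) + 11 / (12 * Real.pi ^ 2) * Real.log L =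
      (∑ k ∈ K, A k) / L ^ 4 + (∑ k ∈ K, B k) / L ^ 4 + (∑ k ∈ K, E k) / L ^ 4 +
      1 / 2 * (S5 - 1 / (6 * Real.pi ^ 2) * Real.log L) -
      2 * (S3 - 1 / (2 * Real.pi ^ 2) * Real.log L) + Sc := by
    rw [hFF, hMsum]
    have hpi : (Real.pi : ℝ) ≠ 0 := Real.pi_ne_zero
    field_simp
    ring
  rw [hmain]
  have d1 : |(∑ k ∈ K, A k) / (L : ℝ) ^ 4| ≤ |C1| := by
    rw [abs_div, abs_of_pos (show (0 : ℝ) < (L : ℝ) ^ 4 by positivity),
      div_le_iff₀ (by positivity)]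
    exact hAsum
  have d2 : |(∑ k ∈ K, B k) / (L : ℝ) ^ 4| ≤ |C1| := by
    rw [abs_div, abs_of_pos (show (0 : ℝ) < (L : ℝ) ^ 4 by positivity),
      div_le_iff₀ (by positivity)]
    exact hBsum
  have d3 : |(∑ k ∈ K, E k) / (L : ℝ) ^ 4| ≤ D * (|C5| + |C5|) + |C4| * |C5| := by
    rw [abs_div, abs_of_pos (show (0 : ℝ) < (L : ℝ) ^ 4 by positivity),
      div_le_iff₀ (by positivity)]
    exact hEsum
  have d4 : |S5 - 1 / (6 * Real.pi ^ 2) * Real.log L| ≤ |C6| := hL5.trans (le_abs_self _)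
  have d5 : |S3 - 1 / (2 * Real.pi ^ 2) * Real.log L| ≤ |C6| := hL3.trans (le_abs_self _)
  have d6 : |Sc| ≤ |C6| := hLc.trans (le_abs_self _)
  rw [abs_le] at *
  constructor <;> linarith [d1.1, d1.2, d2.1, d2.2, d3.1, d3.2, d4.1, d4.2, d5.1, d5.2, d6.1, d6.2]

end Pool.Agent.Y352.AF
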