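import Pool.Agent.Y16.AF.StmP

/-! Coercivity of the action of lattice Yang-Mills theory in the axial gauge. -/

set_option autoImplicit false
set_option linter.unusedSectionVars false

open Matrix
open scoped Matrix.Norms.Frobenius

namespace Pool.Agent.Y352.AF

open Pool.Agent.Y16.Gluon Pool.Agent.Y16.AF

section mats

variable {N : ℕ} {G : Subgroup (UU N)}

theorem mt_mul (g h : G) : mt (g * h) = mt g * mt h := rfl

theorem mt_one : mt (1 : G) = 1 := rfl

theorem mt_inv (g : G) : mt g⁻¹ = (mt g)ᴴ := rfl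

theorem mt_star_mul (g : G) : (mt g)ᴴ * mt g = 1 := by
  rw [← mt_inv, ← mt_mul, inv_mul_cancel, mt_one]

theorem mt_mul_star (g : G) : mt g * (mt g)ᴴ = 1 := by
  rw [← mt_inv, ← mt_mul, mul_inv_cancel, mt_one]

theorem frob_sq (A : Mt N) : ‖A‖ ^ 2 = (trace (Aᴴ * A)).re := by
  rw [frobenius_norm_def, ← Real.sqrt_eq_rpow, Real.sq_sqrt (by positivity)]
  rw [Finset.sum_comm]
  simp only [trace, diag_apply, mul_apply, conjTranspose_apply, Complex.re_sum]
  refine Finset.sum_congr rfl fun i _ => Finset.sum_congr rfl fun j _ => ?_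
  have h1 : (star (A j i) * A j i).re = ‖A j i‖ ^ 2 := by
    have := Complex.normSq_eq_conj_mul_self (z := A j i)
    rw [show star (A j i) = (starRingEnd ℂ) (A j i) from rfl, ← this, Complex.ofReal_re,
      Complex.normSq_eq_norm_sq]
  rw [h1]
  norm_num

theorem norm_mul_left (g : G) (A : Mt N) : ‖mt g * A‖ = ‖A‖ := by
  have h : ‖mt g * A‖ ^ 2 = ‖A‖ ^ 2 := by
    rw [frob_sq, frob_sq, conjTranspose_mul, Matrix.mul_assoc, ← Matrix.mul_assoc (mt g)ᴴ,
      mt_star_mul, Matrix.one_mul]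
  exact (sq_eq_sq₀ (norm_nonneg _) (norm_nonneg _)).1 h

theorem norm_mul_right (g : G) (A : Mt N) : ‖A * mt g‖ = ‖A‖ := by
  have h : ‖A * mt g‖ ^ 2 = ‖A‖ ^ 2 := by
    rw [frob_sq, frob_sq, conjTranspose_mul, trace_mul_comm, Matrix.mul_assoc,
      ← Matrix.mul_assoc (mt g), mt_mul_star, Matrix.one_mul, trace_mul_comm]
  exact (sq_eq_sq₀ (norm_nonneg _) (norm_nonneg _)).1 h

/-- The Wilson term. -/
theorem wilson_eq (g : G) : (trace (1 - mt g)).re = ‖mt g - 1‖ ^ 2 / 2 := by
  rw [frob_sq, conjTranspose_sub, conjTranspose_one]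
  have h1 : ((mt g)ᴴ - 1) * (mt g - 1) = (1 - mt g) + (1 - mt g)ᴴ := by
    rw [conjTranspose_sub, conjTranspose_one, Matrix.sub_mul, Matrix.mul_sub, Matrix.mul_sub,
      mt_star_mul]
    simp only [Matrix.mul_one, Matrix.one_mul]
    abel
  rw [h1, trace_add, Complex.add_re, trace_conjTranspose]
  have h2 : (star (trace (1 - mt g))).re = (trace (1 - mt g)).re := Complex.conj_re _
  rw [h2]
  ring

theorem wilson_nonneg (g : G) : 0 ≤ (trace (1 - mt g)).re := by
  rw [wilson_eq]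
  positivity

/-- Distance of group elements. -/
theorem norm_inv_mul (g h : G) : ‖mt (g⁻¹ * h) - 1‖ = ‖mt h - mt g‖ := by
  rw [← norm_mul_left g⁻¹ (mt h - mt g), Matrix.mul_sub, ← mt_mul, ← mt_mul, inv_mul_cancel,
    mt_one]

end mats

section walk

variable {L : ℕ} [NeZero L] {E : Type*} [SeminormedAddCommGroup E]

theorem walk_line (f : Sp L → E) (c : ℝ) (j : Fin 3)
    (h : ∀ y, ‖f (y + Pi.single j 1) - f y‖ ≤ c) (n : ℕ) (y : Sp L) :
    ‖f (y + Pi.single j (n : ZMod L)) - f y‖ ≤ n * c := by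
  induction n with
  | zero => simp
  | succ n ih =>
    have h1 : y + Pi.single j ((n + 1 : ℕ) : ZMod L) =
        (y + Pi.single j (n : ZMod L)) + Pi.single j 1 := by
      rw [add_assoc, ← Pi.single_add]
      push_cast
      rfl
    rw [h1]
    have h2 := h (y + Pi.single j (n : ZMod L))
    calc ‖f (y + Pi.single j (n : ZMod L) + Pi.single j 1) - f y‖
        = ‖(f (y + Pi.single j (n : ZMod L) + Pi.single j 1) - f (y + Pi.single j (n : ZMod L))) +
          (f (y + Pi.single j (n : ZMod L)) - f y)‖ := by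
          congr 1
          abel
      _ ≤ c + n * c := (norm_add_le _ _).trans (add_le_add h2 ih)
      _ = _ := by push_cast; ring

theorem walk (f : Sp L → E) (c : ℝ) (hc : 0 ≤ c)
    (h : ∀ j y, ‖f (y + Pi.single j 1) - f y‖ ≤ c) (x : Sp L) :
    ‖f x - f 0‖ ≤ 3 * L * c := by
  have hstep : ∀ (j : Fin 3) (y : Sp L) (a : ZMod L), ‖f (y + Pi.single j a) - f y‖ ≤ L * c := by
    intro j y a
    have h1 := walk_line f c j (h j) a.val y
    rw [ZMod.natCast_zmod_val] at h1
    refine h1.trans ?_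
    apply mul_le_mul_of_nonneg_right _ hc
    exact_mod_cast (ZMod.val_lt a).le
  have e1 := hstep 0 0 (x 0)
  have e2 := hstep 1 (0 + Pi.single 0 (x 0)) (x 1)
  have e3 := hstep 2 (0 + Pi.single 0 (x 0) + Pi.single 1 (x 1)) (x 2)
  have hx : (0 : Sp L) + Pi.single 0 (x 0) + Pi.single 1 (x 1) + Pi.single 2 (x 2) = x := by
    ext i
    fin_cases i <;> simp
  rw [hx] at e3
  have e4 : f x - f 0 = (f x - f (0 + Pi.single 0 (x 0) + Pi.single 1 (x 1))) +
      (f (0 + Pi.single 0 (x 0) + Pi.single 1 (x 1)) - f (0 + Pi.single 0 (x 0))) +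
      (f (0 + Pi.single 0 (x 0)) - f 0) := by abel
  rw [e4]
  refine (norm_add₃_le).trans ?_
  linarith

end walk

section main

variable {N L : ℕ} {G : Subgroup (UU N)}

/-- The spatial link variable, `1` on the boundary. -/
def uj (V : Links L → G) (t : ℕ) (x : Sp L) (j : Fin 3) : G :=
  if h : 0 < t ∧ t < L then V (x, .inr (⟨t - 1, by omega⟩, j)) else 1

theorem lg_tplaq (V : Links L → G) (x : Sp L) (t : Fin L) (j : Fin 3) :
    lg V (x, t, .inl j) 0 * lg V (x, t, .inl j) 1 * lg V (x, t, .inl j) 2 *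
      lg V (x, t, .inl j) 3 =
    (V (x + Pi.single j 1, .inl t))⁻¹ * (uj V t x j)⁻¹ * V (x, .inl t) * uj V (t + 1) x j := by
  have ht := t.2
  have h0 : lg V (x, t, .inl j) 0 = (V (x + Pi.single j 1, .inl t))⁻¹ := by
    simp [lg, lv, vT, sb, ls, ht]
  have h1 : lg V (x, t, .inl j) 1 = (uj V t x j)⁻¹ := by
    by_cases h : 0 < (t : ℕ)
    · simp [lg, lv, vS, sb, ls, uj, h]
    · simp [lg, lv, vS, sb, ls, uj, h]
  have h2 : lg V (x, t, .inl j) 2 = V (x, .inl t) := by
    simp [lg, lv, vT, sb, ls, ht]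
  have h3 : lg V (x, t, .inl j) 3 = uj V (t + 1) x j := by
    by_cases h : (t : ℕ) + 1 < L
    · simp [lg, lv, vS, sb, ls, uj, h]
    · simp [lg, lv, vS, sb, ls, uj, h]
  rw [h0, h1, h2, h3]

end main

theorem af_coer : S_COER := by
  intro N G L _ hL U w hw
  set V := fx U with hV
  set D : ℝ := Real.sqrt (2 * S0 U) with hD
  have hS0 : 0 ≤ S0 U := by
    unfold S0
    exact Finset.sum_nonneg fun p _ => wilson_nonneg _
  have hD0 : 0 ≤ D := Real.sqrt_nonneg _
  have hD2 : D ^ 2 = 2 * S0 U := Real.sq_sqrt (by positivity)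
  have hL0 : (2 : ℝ) ≤ L := by exact_mod_cast hL
  have hplaq : ∀ p : Pq L, ‖mt (lg V p 0 * lg V p 1 * lg V p 2 * lg V p 3) - 1‖ ≤ D := by
    intro p
    apply Real.le_sqrt_of_sq_le
    have h1 : (trace (1 - mt (lg V p 0 * lg V p 1 * lg V p 2 * lg V p 3))).re ≤ S0 U := by
      unfold S0
      rw [← hV]
      exact Finset.single_le_sum (f := fun p =>
        (trace (1 - mt (lg V p 0 * lg V p 1 * lg V p 2 * lg V p 3))).re)
        (fun p _ => wilson_nonneg _) (Finset.mem_univ p)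
    rw [wilson_eq] at h1
    linarith
  -- the spatial links
  have hstep : ∀ (t : ℕ), t + 1 < L → ∀ (x : Sp L) (j : Fin 3),
      ‖mt (uj V (t + 1) x j) - mt (uj V t x j)‖ ≤ D := by
    intro t ht x j
    have h1 := hplaq (x, ⟨t, by omega⟩, .inl j)
    rw [lg_tplaq] at h1
    have hnd : ∀ y : Sp L, V (y, .inl ⟨t, by omega⟩) = 1 := by
      intro y
      rw [hV]
      unfold fx
      rw [if_neg]
      intro hd
      have := (hd ⟨t, by omega⟩ rfl).1
      simp only at this
      omega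
    rw [hnd, hnd, inv_one, one_mul, mul_one, norm_inv_mul] at h1
    exact h1
  have hu : ∀ (t : ℕ), t < L → ∀ (x : Sp L) (j : Fin 3), ‖mt (uj V t x j) - 1‖ ≤ t * D := by
    intro t
    induction t with
    | zero =>
      intro _ x j
      have : uj V 0 x j = 1 := by simp [uj]
      rw [this, mt_one]
      simp
    | succ t ih =>
      intro ht x j
      have h1 := hstep t ht x j
      have h2 := ih (by omega) x j
      have h3 : mt (uj V (t + 1) x j) - 1 =
          (mt (uj V (t + 1) x j) - mt (uj V t x j)) + (mt (uj V t x j) - 1) := by abel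
      rw [h3]
      refine (norm_add_le _ _).trans ?_
      push_cast
      linarith
  -- the last time links
  have hLm : L - 1 < L := by omega
  set v : Sp L → G := fun x => V (x, .inl ⟨L - 1, hLm⟩) with hv
  have hvstep : ∀ (j : Fin 3) (x : Sp L), ‖mt (v (x + Pi.single j 1)) - mt (v x)‖ ≤ L * D := by
    intro j x
    have h1 := hplaq (x, ⟨L - 1, hLm⟩, .inl j)
    rw [lg_tplaq] at h1
    have h2 : uj V ((⟨L - 1, hLm⟩ : Fin L) + 1 : ℕ) x j = 1 := by
      unfold uj
      rw [dif_neg]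
      simp only
      omega
    rw [h2, mul_one, ← _root_.mul_inv_rev, norm_inv_mul, mt_mul] at h1
    have h3 := hu (L - 1) hLm x j
    have h4 : ‖(mt (uj V (L - 1) x j) - 1) * mt (v (x + Pi.single j 1))‖ ≤ ((L - 1 : ℕ) : ℝ) * D := by
      rw [norm_mul_right]
      exact h3
    have h5 : mt (v (x + Pi.single j 1)) - mt (v x) =
        -(mt (v x) - mt (uj V (L - 1) x j) * mt (v (x + Pi.single j 1))) -
          (mt (uj V (L - 1) x j) - 1) * mt (v (x + Pi.single j 1)) := by
      rw [Matrix.sub_mul, Matrix.one_mul]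
      abel
    rw [h5]
    refine (norm_sub_le _ _).trans ?_
    rw [norm_neg]
    have h6 : ((L - 1 : ℕ) : ℝ) = L - 1 := by
      rw [Nat.cast_sub (by omega)]
      simp
    rw [h6] at h4
    have h7 : ‖mt (v x) - mt (uj V (L - 1) x j) * mt (v (x + Pi.single j 1))‖ ≤ D := h1
    linarith
  have hv0 : v 0 = 1 := by
    rw [hv, hV]
    simp only
    unfold fx
    rw [if_neg]
    intro hd
    exact (hd ⟨L - 1, hLm⟩ rfl).2 rfl
  have hvx : ∀ x, ‖mt (v x) - 1‖ ≤ 3 * L * (L * D) := by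
    intro x
    have := walk (fun x => mt (v x)) (L * D) (by positivity) hvstep x
    simp only [hv0, mt_one] at this
    exact this
  have hfin : ∀ a : ℝ, 0 ≤ a → a ≤ 3 * L * (L * D) → a ^ 2 ≤ 100 * (L : ℝ) ^ 4 * S0 U := by
    intro a ha hb
    have h1 : a ^ 2 ≤ (3 * L * (L * D)) ^ 2 := pow_le_pow_left₀ ha hb 2
    have h2 : (3 * (L : ℝ) * (L * D)) ^ 2 = 9 * (L : ℝ) ^ 4 * D ^ 2 := by ring
    rw [h2, hD2] at h1
    have h3 : 0 ≤ (L : ℝ) ^ 4 * S0 U := by positivity
    nlinarith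
  have hUw : V w = U w := by
    rw [hV]
    unfold fx
    rw [if_pos hw]
  rw [← hUw]
  apply hfin _ (norm_nonneg _)
  obtain ⟨x, a⟩ := w
  rcases a with t | ⟨s, j⟩
  · have ht := (hw t rfl).1
    have : t = ⟨L - 1, hLm⟩ := by
      apply Fin.ext
      simp only
      omega
    rw [this]
    exact hvx x
  · have hs := s.2
    have h1 := hu (s + 1) (by omega) x j
    have h2 : uj V (s + 1) x j = V (x, .inr (s, j)) := by
      unfold uj
      rw [dif_pos ⟨by omega, by omega⟩]
      simp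
    rw [h2] at h1
    refine h1.trans ?_
    have h3 : ((s + 1 : ℕ) : ℝ) ≤ L := by exact_mod_cast (by omega : (s : ℕ) + 1 ≤ L)
    have h4 : ((s + 1 : ℕ) : ℝ) * D ≤ L * D := mul_le_mul_of_nonneg_right h3 hD0
    have h5 : (L : ℝ) * D ≤ 3 * L * (L * D) := by
      have : 0 ≤ (L : ℝ) * D := by positivity
      nlinarith
    linarith

end Pool.Agent.Y352.AF
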